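import Mathlib

set_option autoImplicit false

namespace Pool.Agent.H15.HX

open Matroid

/-- `N` is isomorphic to the rank-3 whirl: its ground set consists of six distinct elements
`x 0, …, x 5` and its bases are the 3-element subsets other than the three lines
`{0,1,3}`, `{0,2,4}`, `{1,2,5}`. -/
def IsW3 {α : Type*} (N : Matroid α) : Prop :=
  ∃ x : Fin 6 → α, Function.Injective x ∧ N.E = Set.range x ∧
    ∀ B : Finset (Fin 6), N.IsBase (x '' (B : Set (Fin 6))) ↔
      (B.card = 3 ∧ B ≠ {0, 1, 3} ∧ B ≠ {0, 2, 4} ∧ B ≠ {1, 2, 5})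

/-- `M` has a minor isomorphic to the rank-3 whirl. -/
def HasW3Minor {α : Type*} (M : Matroid α) : Prop :=
  ∃ N : Matroid α, N ≤m M ∧ IsW3 N

end Pool.Agent.H15.HX
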