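import Mathlib
import Pool.Agent.H9.Bry.Defs
import Pool.Agent.H15.HX.W3

set_option autoImplicit false

namespace Pool.Agent.H15.HX

open Pool.Agent.H9.Bry

/-- Vector form of `no M(K₄)-minor and no W³-minor`: no contraction contains a triangle of three
long lines (vertices `e, g, a`, third points `e + g`, `g + a`, `a + γ e`). -/
def HexFree (F : Type*) [Field F] {V : Type*} [AddCommGroup V] [Module F V] (X : Set V) : Prop :=
  ∀ Z ⊆ X, ∀ e g a : V, ∀ γ : F, γ ≠ 0 →
    (∀ c₁ c₂ c₃ : F, c₁ • e + c₂ • g + c₃ • a ∈ Submodule.span F Z →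
      c₁ = 0 ∧ c₂ = 0 ∧ c₃ = 0) →
    MemMod F X Z e → MemMod F X Z g → MemMod F X Z a → MemMod F X Z (e + g) →
    MemMod F X Z (g + a) → MemMod F X Z (a + γ • e) → False

/-- the row system is hex-free on `Q` -/
def HRowFree {F : Type*} [Field F] {α : Type*} [DecidableEq α] {ι : Type*} (f : ι → α → F)
    (Q : Finset α) : Prop :=
  ∀ Y ⊆ Q, HexFree F (rowSet f Y)

end Pool.Agent.H15.HX
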