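import Mathlib
import Pool.Agent.H15.HX.Defs
import Pool.Agent.H52.HX.HDS
import Pool.Agent.H2.HX.HTL
import Pool.Agent.H17.HX.SPA
import Pool.Agent.H17.HX.SPB
import Pool.Agent.H51.HX.SPC
import Pool.Agent.H16.HX.ARI
import Pool.Agent.H9.Bry.COG0

set_option autoImplicit false

namespace Pool.Agent.H15.HX

open Finset Pool.Agent.H9.Bry

theorem hcog_core {α F : Type*} [Field F] [Fintype F] [DecidableEq F] [Fintype α]
    [DecidableEq α] (hq5 : 5 ≤ Fintype.card F) {r : ℕ} (hr : 1 ≤ r) (f : Fin r → α → F)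
    (Q : Finset α) (hf : HRowFree f Q) (d : ℕ) (hQ : Q.card ≤ (Fintype.card F - 1) * r)
    (hdist : ∀ c c' : F, c ≠ 0 → c' ≠ 0 → ∀ j j' : Fin r, (c, j) ≠ (c', j') →
      d ≤ (Q.filter (fun y => (c • f j) y ≠ (c' • f j') y)).card)
    (hw : ∀ j, d ≤ (Q.filter (fun y => f j y ≠ 0)).card)
    (hD2 : ∀ X : Set (α → F), HexFree F X → IsCone F X →
      (X \ {0}).ncard ≤ (Fintype.card F - 1) * Fintype.card F *
        Module.finrank F (Submodule.span F X))
    (hd : 16 * Fintype.card F * (Fintype.card F - 1) < 3 * d) : False := by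
  classical
  set q := Fintype.card F with hqdef
  have hd1 : 1 ≤ d := by omega
  have hdN : d ≤ Q.card := (hw ⟨0, hr⟩).trans (Finset.card_filter_le _ _)
  -- the family
  let 𝓕 : Finset (α → F) :=
    (((Finset.univ : Finset F).erase 0) ×ˢ (Finset.univ : Finset (Fin r))).image
      (fun p => p.1 • f p.2)
  have hmem : ∀ g, g ∈ 𝓕 ↔ ∃ (c : F) (j : Fin r), c ≠ 0 ∧ g = c • f j := by
    intro g
    simp only [𝓕, mem_image, mem_product, mem_erase, mem_univ, and_true, Prod.exists]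
    constructor
    · rintro ⟨c, j, hc, rfl⟩
      exact ⟨c, j, hc, rfl⟩
    · rintro ⟨c, j, hc, rfl⟩
      exact ⟨c, j, hc, rfl⟩
  have hcard : 𝓕.card = (q - 1) * r := by
    rw [Finset.card_image_of_injOn]
    · rw [Finset.card_product, Finset.card_erase_of_mem (Finset.mem_univ _), Finset.card_univ,
        Finset.card_univ, Fintype.card_fin]
    · rintro ⟨c, j⟩ hp ⟨c', j'⟩ hp' heq
      by_contra hne
      simp only [coe_product, Set.mem_prod, mem_coe, mem_erase, mem_univ, and_true] at hp hp'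
      have h1 := hdist c c' hp hp' j j' hne
      have h2 : (Q.filter (fun y => (c • f j) y ≠ (c' • f j') y)) = ∅ := by
        apply Finset.filter_eq_empty_iff.2
        intro y _
        rw [not_not]
        exact congrFun heq y
      rw [h2, Finset.card_empty] at h1
      omega
  have hdF : ∀ g ∈ 𝓕, ∀ g' ∈ 𝓕, g ≠ g' → d ≤ (Q.filter (fun y => g y ≠ g' y)).card := by
    intro g hg g' hg' hne
    obtain ⟨c, j, hc, rfl⟩ := (hmem g).1 hg
    obtain ⟨c', j', hc', rfl⟩ := (hmem g').1 hg'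
    apply hdist c c' hc hc' j j'
    intro h
    obtain ⟨rfl, rfl⟩ := Prod.mk.inj h
    exact hne rfl
  have hrow : ∀ g ∈ 𝓕, ∃ (c : F) (j : Fin r), g = c • f j := by
    intro g hg
    obtain ⟨c, j, _, h⟩ := (hmem g).1 hg
    exact ⟨c, j, h⟩
  have hwF : ∀ g ∈ 𝓕, d ≤ (Q.filter (fun y => g y ≠ 0)).card := by
    intro g hg
    obtain ⟨c, j, hc, rfl⟩ := (hmem g).1 hg
    have h1 : Q.filter (fun y => (c • f j) y ≠ 0) = Q.filter (fun y => f j y ≠ 0) := by
      ext y
      simp [hc]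
    rw [h1]
    exact hw j
  have hsplit : ∀ Y ⊆ Q, ∀ h ∈ 𝓕.image (res Y), h ≠ 0 →
      2 ≤ (𝓕.filter (fun g => res Y g = h)).card →
      d * (𝓕.filter (fun g => res Y g = h)).card ≤
        2 * ∑ x ∈ Q, (((𝓕.filter (fun g => res Y g = h)).image (fun g => g x)).card - 1) := by
    intro Y hY h _ hh0 h2
    obtain ⟨y₀, hy₀⟩ : ∃ y, h y ≠ 0 := by
      by_contra hcon
      push Not at hcon
      exact hh0 (funext hcon)
    have hy₀Y : y₀ ∈ Y := by
      by_contra hcon
      obtain ⟨g, hg⟩ := Finset.card_pos.1 (show 0 < (𝓕.filter (fun g => res Y g = h)).card by omega)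
      rw [mem_filter] at hg
      apply hy₀
      rw [← hg.2]
      simp [res, hcon]
    have hval : ∀ g ∈ 𝓕.filter (fun g => res Y g = h), g y₀ = h y₀ := by
      intro g hg
      rw [mem_filter] at hg
      rw [← hg.2]
      simp [res, hy₀Y]
    refine tree_splits (𝓕.filter (fun g => res Y g = h)) Q (fun x g => g x) d h2 ?_ ?_
    · intro g hg g' hg' hne
      exact hdF g (mem_filter.1 hg).1 g' (mem_filter.1 hg').1 hne
    · intro x hx y hy g1 h1 g2 h2' g3 h3 g4 h4 a12 a23 a34 b12 b23 b34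
      exact row_ds f Q hf (hY hy₀Y) hx hy (hrow g1 (mem_filter.1 h1).1)
        (hrow g2 (mem_filter.1 h2').1) (hrow g3 (mem_filter.1 h3).1) (hrow g4 (mem_filter.1 h4).1)
        (by rw [hval g2 h2']; exact hy₀) (by rw [hval g1 h1, hval g2 h2'])
        (by rw [hval g3 h3, hval g2 h2']) (by rw [hval g4 h4, hval g2 h2'])
        a12 a23 a34 b12 b23 b34
  obtain ⟨M, hMN, hM⟩ := cog_arith3 q r Q.card d hq5 hr hdN hQ hd
  apply hM
  have key := averaging Q (fun Y => ((𝓕.image (res Y)).erase 0).card)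
    (fun Y => (𝓕.filter (fun g => res Y g = 0)).card) d 𝓕.card ((q - 1) * q) M hMN ?_ ?_ ?_ ?_ ?_ ?_
  · rw [hcard] at key
    exact key
  · intro Y hY x hx
    exact (split_step 𝓕 Q Y hY d (hsplit Y hY)).1 x hx
  · intro Y hY
    exact (split_step 𝓕 Q Y hY d (hsplit Y hY)).2
  · intro Y hY x hx
    exact (zero_step 𝓕 Q Y hY d hwF).1 x hx
  · intro Y hY
    exact (zero_step 𝓕 Q Y hY d hwF).2
  · intro Y _
    have h1 : (𝓕.image (res Y)).erase 0 ⊆ (𝓕.filter (fun g => ¬ res Y g = 0)).image (res Y) := by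
      intro h hh
      rw [mem_erase, mem_image] at hh
      obtain ⟨h0, g, hg, rfl⟩ := hh
      exact mem_image.2 ⟨g, mem_filter.2 ⟨hg, h0⟩, rfl⟩
    have h2 := (card_le_card h1).trans card_image_le
    have h3 := Finset.card_filter_add_card_filter_not (s := 𝓕) (fun g => res Y g = 0)
    omega
  · intro Y hY
    have h2 : (((𝓕.image (res Y)).erase 0 : Finset (α → F)) : Set (α → F)) ⊆
        rowSet f Y \ {0} := by
      intro g hg
      rw [Finset.mem_coe, Finset.mem_erase] at hg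
      refine ⟨?_, by simpa using hg.1⟩
      obtain ⟨g', hg', rfl⟩ := Finset.mem_image.1 hg.2
      obtain ⟨c, j, _, rfl⟩ := (hmem g').1 hg'
      exact Or.inl ⟨c, j, by rw [map_smul]⟩
    have h3 := Set.ncard_le_ncard h2 (Set.toFinite _)
    rw [Set.ncard_coe_finset] at h3
    refine h3.trans ((hD2 _ (hf Y hY) (isCone_rowSet f Y)).trans ?_)
    exact Nat.mul_le_mul_left _ (finrank_rowSet f Y)

end Pool.Agent.H15.HX
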