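import Mathlib
import Pool.Agent.H15.HX.Defs
import Pool.Agent.H54.BryDefs
import Pool.Agent.H54.K4
import Pool.Agent.H54.Crit
import Pool.Agent.H70.HX.HMC
import Pool.Agent.H9.Bry.K1

set_option autoImplicit false

namespace Pool.Agent.H15.HX

open Pool.Agent.H9.Bry

open Pool.Agent.H54.Bry in
/-- a represented matroid without `M(K₄)`- and without `W³`-minor gives a `HexFree` cone -/
theorem hexfree_of_matroid {α F V : Type*} [Finite α] [Field F] [AddCommGroup V] [Module F V]
    {M : Matroid α} {v : α → V}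
    (hv : ∀ I : Set α, I ⊆ M.E → (M.Indep I ↔ LinearIndepOn F v I))
    (hK : ¬ HasMK4Minor M) (hW : ¬ HasW3Minor M) : HexFree F (coneOf F v M.E) := by
  intro Z hZ e g a γ hγ hind h0 h1 h2 h3 h5 h4
  by_cases hγ1 : γ = -1
  · subst hγ1
    have hcone : ∀ u : V, MemMod F (coneOf F v M.E) Z u → MemMod F (coneOf F v M.E) Z (-u) := by
      rintro u ⟨_, ⟨c, y, hy, rfl⟩, hu⟩
      refine ⟨-(c • v y), ⟨-c, y, hy, by rw [neg_smul]⟩, ?_⟩
      have : -u - -(c • v y) = -(u - c • v y) := by abel
      rw [this]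
      exact Submodule.neg_mem _ hu
    refine k4free_of_matroid hv hK Z hZ e (g + a) (-a) ?_ h0 h5 (hcone _ h2) ?_ ?_ ?_
    · intro c₁ c₂ c₃ h
      obtain ⟨q1, q2, q3⟩ := hind c₁ c₂ (c₂ - c₃) (by
        have : c₁ • e + c₂ • g + (c₂ - c₃) • a = c₁ • e + c₂ • (g + a) + c₃ • -a := by module
        rw [this]
        exact h)
      refine ⟨q1, q2, ?_⟩
      rw [q2, zero_sub, neg_eq_zero] at q3
      exact q3
    · have : -a + e = -(a + (-1 : F) • e) := by module
      rw [this]
      exact hcone _ h4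
    · have : -a + (g + a) = g := by abel
      rw [this]
      exact h1
    · have : -a + e + (g + a) = e + g := by abel
      rw [this]
      exact h3
  · exact hW (w3_of_not_hexfree hv hZ hγ hγ1 hind h0 h1 h2 h3 h5 h4)

end Pool.Agent.H15.HX
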