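import Mathlib
import Pool.Agent.H15.HX.Defs
import Pool.Agent.H56.HX.HMP
import Pool.Agent.H34.HX.HDU
import Pool.Agent.H15.HX.HM
import Pool.Agent.H9.Bry.K1
import Pool.Agent.H9.Bry.DU1
import Pool.Agent.H9.Bry.DU2

set_option autoImplicit false

namespace Pool.Agent.H15.HX

open Finset Pool.Agent.H9.Bry

open Pool.Agent.H54.Bry in
theorem hrowFree_of_matroid {α F : Type*} [Field F] [Fintype α] [DecidableEq α] {M : Matroid α}
    {r : ℕ} (v : α → (Fin r → F)) (b : Fin r → α) (hbE : ∀ j, b j ∈ M.E)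
    (hvb : ∀ j, v (b j) = Pi.single j 1)
    (hv : ∀ I : Set α, I ⊆ M.E → (M.Indep I ↔ LinearIndepOn F v I))
    (hK4 : ¬ HasMK4Minor M) (hW3 : ¬ HasW3Minor M) (Q : Finset α) (hQ : ∀ y, y ∈ Q ↔ y ∈ M.E ∧ y ∉ Set.range b) :
    HRowFree (fun (j : Fin r) (y : α) => if y ∈ Q then v y j else 0) Q := by
  intro Y hY
  obtain ⟨u, hu1, hu2, hu3⟩ := dual_rep v b hbE hvb hv
  have hfree : HexFree F (coneOf F u M✶.E) := by
    refine hexfree_of_matroid (M := M✶) (v := u) ?_ (fun h => hK4 (hasMK4_of_dual h)) (fun h => hW3 (hasW3_of_dual h))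
    intro I hI
    exact hu3 I hI
  have hub : ∀ j, u (b j) = fun y => if y ∈ Q then v y j else 0 := by
    intro j
    rw [hu1 j]
    funext y
    by_cases hy : y ∈ Q
    · have := (hQ y).1 hy
      simp only [hy, if_true]
      rw [if_pos this]
    · have : ¬ (y ∈ M.E ∧ y ∉ Set.range b) := fun h => hy ((hQ y).2 h)
      simp only [hy, if_false]
      rw [if_neg this]
  have huQ : ∀ y ∈ Q, u y = - Pi.single y 1 := by
    intro y hy
    rw [hu2 y ((hQ y).1 hy).1 ((hQ y).1 hy).2]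
    funext t
    by_cases ht : t = y
    · subst ht
      simp
    · simp [ht]
  have hsupp : ∀ x ∈ Submodule.span F (coneOf F u M✶.E), ∀ y, y ∉ Q → x y = 0 := by
    intro x hx y hy
    have : Submodule.span F (coneOf F u M✶.E)
        ≤ LinearMap.ker (LinearMap.proj (R := F) (φ := fun _ : α => F) y) := by
      rw [Submodule.span_le]
      rintro w ⟨c, z, hz, rfl⟩
      rw [SetLike.mem_coe, LinearMap.mem_ker, LinearMap.proj_apply]
      by_cases hzb : z ∈ Set.range b
      · obtain ⟨j, rfl⟩ := hzb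
        rw [hub j]
        simp [hy]
      · have hzQ : z ∈ Q := (hQ z).2 ⟨hz, hzb⟩
        rw [huQ z hzQ]
        have hne : y ≠ z := fun h => hy (h ▸ hzQ)
        simp [hne]
    exact this hx
  let Z₁ : Set (α → F) := {x | ∃ (c : F) (y : α), (y ∈ Q ∧ y ∉ Y) ∧
    x = c • (Pi.single y (1 : F) : α → F)}
  have hmap : HexFree F ((res Y : (α → F) →ₗ[F] (α → F)) '' (coneOf F u M✶.E)) := by
    refine HexFree.map (res Y) (Z₁ := Z₁) hfree ?_ ?_ ?_
    · rintro x ⟨c, y, ⟨hyQ, _⟩, rfl⟩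
      refine ⟨-c, y, ((hQ y).1 hyQ).1, ?_⟩
      rw [huQ y hyQ, smul_neg, neg_smul, neg_neg]
    · rintro x ⟨c, y, ⟨_, hyY⟩, rfl⟩
      funext t
      by_cases ht : t ∈ Y
      · have hne : t ≠ y := fun h => hyY (h ▸ ht)
        simp [res, hne]
      · simp [res, ht]
    · intro x hx hx0
      have hsum : x = ∑ y : α, x y • (Pi.single y (1 : F) : α → F) := by
        funext t
        simp [Finset.sum_apply, Pi.single_apply]
      rw [hsum]
      refine Submodule.sum_mem _ fun y _ => ?_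
      by_cases hyQ : y ∈ Q
      · by_cases hyY : y ∈ Y
        · have h0 : x y = 0 := by
            have := congrFun hx0 y
            simpa [res, hyY] using this
          rw [h0, zero_smul]
          exact Submodule.zero_mem _
        · exact Submodule.subset_span ⟨x y, y, ⟨hyQ, hyY⟩, rfl⟩
      · rw [hsupp x hx y hyQ, zero_smul]
        exact Submodule.zero_mem _
  refine HexFree.mono hmap ?_
  rintro x (⟨c, j, rfl⟩ | ⟨c, y, hy, rfl⟩)
  · refine ⟨c • u (b j), ⟨c, b j, hbE j, rfl⟩, ?_⟩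
    rw [map_smul, hub j]
  · have hyQ : y ∈ Q := hY hy
    refine ⟨(-c) • u y, ⟨-c, y, ((hQ y).1 hyQ).1, rfl⟩, ?_⟩
    rw [huQ y hyQ, smul_neg, neg_smul, neg_neg, map_smul]
    congr 1
    funext t
    by_cases ht : t ∈ Y
    · simp [res, ht]
    · have hne : t ≠ y := fun h => ht (h ▸ hy)
      simp [res, ht, hne]

end Pool.Agent.H15.HX
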