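import Mathlib
import Pool.Agent.H15.HX.RF
import Pool.Agent.H15.HX.CORE
import Pool.Agent.H54.Crit
import Pool.Agent.H54.StdRep

set_option autoImplicit false

namespace Pool.Agent.H15.HX

open Finset Pool.Agent.H9.Bry

theorem hex_num (q : ℕ) (hq : 5 ≤ q) : 16 * q * (q - 1) < 3 * (q ^ 3 - 1 - 1) := by
  obtain ⟨s, rfl⟩ : ∃ s, q = s + 5 := ⟨q - 5, by omega⟩
  have h1 : 16 * (s + 5) * (s + 5 - 1) = 16 * s * s + 144 * s + 320 := by
    rw [show s + 5 - 1 = s + 4 by omega]
    ring
  have h2 : (s + 5) ^ 3 = s * (s * s) + 15 * (s * s) + 75 * s + 125 := by ring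
  have h3 : 16 * s * s = 16 * (s * s) := by ring
  rw [h1, h2, h3]
  omega

open Pool.Agent.H54.Bry in
/-- small cocircuits, given a density bound with constant `C` -/
theorem hcogirth_bound {α F : Type*} [Field F] [Fintype F] [Fintype α] {M : Matroid α} {n : ℕ}
    (v : α → (Fin n → F)) (hv : ∀ I : Set α, I ⊆ M.E → (M.Indep I ↔ LinearIndepOn F v I))
    (hq5 : 5 ≤ Fintype.card F)
    (hK4 : ¬ HasMK4Minor M) (hW3 : ¬ HasW3Minor M) (hne : M.E.Nonempty) (h0 : ∀ x ∈ M.E, v x ≠ 0)
    (hs : ∀ x ∈ M.E, ∀ y ∈ M.E, x ≠ y → ∀ c : F, v x ≠ c • v y) 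
    (hD1 : ∀ (r : ℕ) (X : Set (Fin r → F)), HexFree F X → IsCone F X →
      (X \ {0}).ncard ≤ (Fintype.card F - 1) * Fintype.card F *
        Module.finrank F (Submodule.span F X))
    (hD2 : ∀ X : Set (α → F), HexFree F X → IsCone F X →
      (X \ {0}).ncard ≤ (Fintype.card F - 1) * Fintype.card F *
        Module.finrank F (Submodule.span F X)) :
    ∃ ψ : (Fin n → F) →ₗ[F] F, (∃ x ∈ M.E, ψ (v x) ≠ 0) ∧
      {x | x ∈ M.E ∧ ψ (v x) ≠ 0}.ncard ≤
        Fintype.card F ^ 3 - 1 := by
  classical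
  by_contra hcon
  push Not at hcon
  set q := Fintype.card F with hqdef
  set D := q ^ 3 - 1 with hDdef
  have hq : 2 ≤ q := Fintype.one_lt_card
  obtain ⟨r, v', b, hbE, hvb, hv', hspan, hr⟩ := exists_std (F := F) hv (span_basis_eq hv)
  -- simplicity of `v'`
  have h0' : ∀ x ∈ M.E, v' x ≠ 0 := by
    intro x hx
    have h1 : LinearIndepOn F v {x} := by
      rw [linearIndepOn_singleton_iff]
      exact h0 x hx
    have h2 : M.Indep {x} := (hv {x} (by simpa using hx)).2 h1
    have h3 : LinearIndepOn F v' {x} := (hv' {x} (by simpa using hx)).1 h2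
    rwa [linearIndepOn_singleton_iff] at h3
  have hs' : ∀ x ∈ M.E, ∀ y ∈ M.E, x ≠ y → ∀ c : F, v' x ≠ c • v' y := by
    intro x hx y hy hxy c
    have hsub : ({y, x} : Set α) ⊆ M.E := by
      rintro z (rfl | rfl)
      · exact hy
      · exact hx
    have h1 : LinearIndepOn F v {y, x} := by
      rw [LinearIndepOn.pair_iff _ (Ne.symm hxy)]
      intro c d hcd
      have hd : d = 0 := by
        by_contra hd
        apply hs x hx y hy hxy (-(d⁻¹ * c))
        have h2 : d⁻¹ • (c • v y + d • v x) = 0 := by rw [hcd, smul_zero]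
        rw [smul_add, smul_smul, smul_smul, inv_mul_cancel₀ hd, one_smul] at h2
        rw [neg_smul]
        exact eq_neg_of_add_eq_zero_right h2
      subst hd
      rw [zero_smul, add_zero, smul_eq_zero] at hcd
      exact ⟨hcd.resolve_right (h0 y hy), rfl⟩
    have h2 : M.Indep {y, x} := (hv _ hsub).2 h1
    have h3 : LinearIndepOn F v' {y, x} := (hv' _ hsub).1 h2
    rw [LinearIndepOn.pair_iff _ (Ne.symm hxy)] at h3
    intro h4
    have := (h3 c (-1) (by rw [h4, neg_smul, one_smul, add_neg_cancel])).2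
    simp at this
  -- transfer of functionals
  have key : ∀ ψ' : (Fin r → F) →ₗ[F] F, ψ' ≠ 0 → D < {x | x ∈ M.E ∧ ψ' (v' x) ≠ 0}.ncard := by
    intro ψ' hψ'
    let H : Set α := {x | x ∈ M.E ∧ ψ' (v' x) = 0}
    have hHE : H ⊆ M.E := fun x hx => hx.1
    have hex : ∃ x ∈ M.E, v x ∉ Submodule.span F (v '' H) := by
      by_contra hno
      push Not at hno
      have h1 : Submodule.span F (v '' M.E) = Submodule.span F (v '' H) := by
        apply le_antisymm
        · rw [Submodule.span_le]
          rintro _ ⟨x, hx, rfl⟩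
          exact hno x hx
        · exact Submodule.span_mono (Set.image_mono hHE)
      have h2 : (M.eRk H).toNat = (M.eRk M.E).toNat := by
        rw [eRk_toNat hv hHE, eRk_toNat hv (subset_refl _), h1]
      rw [eRk_toNat hv' hHE, eRk_toNat hv' (subset_refl _), hspan, finrank_top] at h2
      have h3 : Submodule.span F (v' '' H) = ⊤ := Submodule.eq_top_of_finrank_eq h2
      apply hψ'
      have h4 : Submodule.span F (v' '' H) ≤ LinearMap.ker ψ' := by
        rw [Submodule.span_le]
        rintro _ ⟨x, hx, rfl⟩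
        exact hx.2
      rw [h3, top_le_iff, LinearMap.ker_eq_top] at h4
      exact h4
    obtain ⟨x₀, hx₀, hx₀'⟩ := hex
    obtain ⟨ψ, hψ1, hψ2⟩ := Submodule.exists_le_ker_of_notMem hx₀'
    refine lt_of_lt_of_le (hcon ψ ⟨x₀, hx₀, hψ1⟩) ?_
    apply Set.ncard_le_ncard _ (Set.toFinite _)
    rintro x ⟨hxE, hx⟩
    refine ⟨hxE, fun hx0 => hx ?_⟩
    exact hψ2 (Submodule.subset_span ⟨x, ⟨hxE, hx0⟩, rfl⟩)
  have hbinj : Function.Injective b := by
    intro j j' h
    have h1 := hvb j
    rw [h, hvb] at h1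
    by_contra hne
    have h2 := congrFun h1 j
    rw [Pi.single_eq_same, Pi.single_eq_of_ne hne] at h2
    exact zero_ne_one h2
  -- the rank is positive
  have hr1 : 1 ≤ r := by
    by_contra hr0
    obtain ⟨x, hx⟩ := hne
    have : r = 0 := by omega
    subst this
    exact h0' x hx (Subsingleton.elim _ _)
  let Q : Finset α := Finset.univ.filter (fun y => y ∈ M.E ∧ y ∉ Set.range b)
  have hQ : ∀ y, y ∈ Q ↔ y ∈ M.E ∧ y ∉ Set.range b := fun y => by simp [Q]
  let f : Fin r → α → F := fun j y => if y ∈ Q then v' y j else 0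
  have hRF : HRowFree f Q := hrowFree_of_matroid v' b hbE hvb hv' hK4 hW3 Q hQ
  -- counting elements
  have hEcard : M.E.ncard = r + Q.card := by
    have h1 : M.E = ((Finset.univ.image b ∪ Q : Finset α) : Set α) := by
      ext y
      simp only [Finset.coe_union, Finset.coe_image, Finset.coe_univ, Set.image_univ,
        Set.mem_union, Finset.mem_coe, hQ]
      constructor
      · intro hy
        by_cases h : y ∈ Set.range b
        · exact Or.inl h
        · exact Or.inr ⟨hy, h⟩
      · rintro (⟨j, rfl⟩ | h)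
        · exact hbE j
        · exact h.1
    rw [h1, Set.ncard_coe_finset, Finset.card_union_of_disjoint]
    · rw [Finset.card_image_of_injective _ hbinj, Finset.card_univ, Fintype.card_fin]
    · rw [Finset.disjoint_left]
      intro y hy hy'
      rw [Finset.mem_image] at hy
      obtain ⟨j, _, rfl⟩ := hy
      exact ((hQ _).1 hy').2 ⟨j, rfl⟩
  have hElow : (q - 1) * M.E.ncard ≤ (coneOf F v' M.E \ {0}).ncard := by
    have h1 : (((Finset.univ : Finset F).erase 0) ×ˢ M.E.toFinset).card =
        (q - 1) * M.E.ncard := by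
      rw [Finset.card_product, Finset.card_erase_of_mem (Finset.mem_univ _), Finset.card_univ,
        Set.ncard_eq_toFinset_card']
    rw [← h1, ← Finset.card_image_of_injOn (f := fun p : F × α => p.1 • v' p.2),
      ← Set.ncard_coe_finset]
    · apply Set.ncard_le_ncard _ (Set.toFinite _)
      intro g hg
      rw [Finset.mem_coe, Finset.mem_image] at hg
      obtain ⟨⟨c, y⟩, hp, rfl⟩ := hg
      rw [Finset.mem_product, Finset.mem_erase, Set.mem_toFinset] at hp
      refine ⟨⟨c, y, hp.2, rfl⟩, ?_⟩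
      rw [Set.mem_singleton_iff]
      exact smul_ne_zero hp.1.1 (h0' y hp.2)
    · rintro ⟨c, y⟩ hp ⟨c', y'⟩ hp' heq
      rw [Finset.mem_coe, Finset.mem_product, Finset.mem_erase, Set.mem_toFinset] at hp hp'
      simp only at heq hp hp'
      have hyy : y = y' := by
        by_contra hne
        apply hs' y hp.2 y' hp'.2 hne (c⁻¹ * c')
        rw [mul_smul, ← heq, smul_smul, inv_mul_cancel₀ hp.1.1, one_smul]
      subst hyy
      have hcc : (c - c') • v' y = 0 := by rw [sub_smul, heq, sub_self]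
      rw [smul_eq_zero] at hcc
      rw [sub_eq_zero.1 (hcc.resolve_right (h0' y hp.2))]
  have hcone : IsCone F (coneOf F v' M.E) := by
    rintro c x ⟨c', y, hy, rfl⟩
    exact ⟨c * c', y, hy, by rw [smul_smul]⟩
  have hfr : Module.finrank F (Submodule.span F (coneOf F v' M.E)) ≤ r := by
    have h1 := Submodule.finrank_le (Submodule.span F (coneOf F v' M.E))
    rwa [Module.finrank_fin_fun] at h1
  have hEC : M.E.ncard ≤ q * r := by
    have h1 := hD1 r _ (hexfree_of_matroid hv' hK4 hW3) hcone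
    have h2 : (q - 1) * M.E.ncard ≤ (q - 1) * (q * r) := by
      calc (q - 1) * M.E.ncard ≤ _ := hElow
        _ ≤ _ := h1
        _ ≤ (q - 1) * q * r := Nat.mul_le_mul_left _ hfr
        _ = (q - 1) * (q * r) := by ring
    exact Nat.le_of_mul_le_mul_left h2 (by omega)
  have hQC : Q.card ≤ (q - 1) * r := by
    obtain ⟨C', hC'⟩ : ∃ C', q = C' + 1 := ⟨q - 1, by omega⟩
    rw [hC', Nat.add_sub_cancel]
    rw [hEcard, hC', add_mul, one_mul] at hEC
    omega
  -- support of a functional
  have hsupp : ∀ (ψ' : (Fin r → F) →ₗ[F] F) (T : Finset (Fin r)), ψ' ≠ 0 →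
      (∀ j, j ∉ T → ψ' (Pi.single j 1) = 0) →
      D + 1 ≤ (Q.filter (fun y => ψ' (v' y) ≠ 0)).card + T.card := by
    intro ψ' T hψ' hT
    have h1 := key ψ' hψ'
    have h2 : {x | x ∈ M.E ∧ ψ' (v' x) ≠ 0} ⊆
        ((Q.filter (fun y => ψ' (v' y) ≠ 0) ∪ T.image b : Finset α) : Set α) := by
      rintro x ⟨hxE, hx⟩
      rw [Finset.coe_union, Set.mem_union, Finset.mem_coe, Finset.mem_coe, Finset.mem_filter, hQ,
        Finset.mem_image]
      by_cases hxb : x ∈ Set.range b
      · obtain ⟨j, rfl⟩ := hxb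
        right
        refine ⟨j, ?_, rfl⟩
        by_contra hj
        apply hx
        rw [hvb]
        exact hT j hj
      · left
        exact ⟨⟨hxE, hxb⟩, hx⟩
    have h3 := Set.ncard_le_ncard h2 (Set.toFinite _)
    rw [Set.ncard_coe_finset] at h3
    have h4 := Finset.card_union_le (Q.filter (fun y => ψ' (v' y) ≠ 0)) (T.image b)
    have h5 : (T.image b).card ≤ T.card := Finset.card_image_le
    omega
  apply hcog_core hq5 hr1 f Q hRF (D - 1) hQC ?_ ?_ hD2 (hex_num q hq5)
  · intro c c' hc hc' j j' hne'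
    let ψ' : (Fin r → F) →ₗ[F] F := c • LinearMap.proj j - c' • LinearMap.proj j'
    have hψ'v : ∀ x, ψ' x = c * x j - c' * x j' := fun x => by simp [ψ']
    have hψ'0 : ψ' ≠ 0 := by
      intro h
      have h1 := congrArg (fun g : (Fin r → F) →ₗ[F] F => g (Pi.single j 1)) h
      simp only [hψ'v, LinearMap.zero_apply, Pi.single_eq_same, mul_one] at h1
      by_cases hjj : j' = j
      · subst hjj
        rw [Pi.single_eq_same, mul_one, sub_eq_zero] at h1
        exact hne' (by rw [h1])
      · rw [Pi.single_eq_of_ne hjj, mul_zero, sub_zero] at h1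
        exact hc h1
    have h1 := hsupp ψ' {j, j'} hψ'0 (by
      intro l hl
      rw [Finset.mem_insert, Finset.mem_singleton, not_or] at hl
      rw [hψ'v, Pi.single_eq_of_ne (Ne.symm hl.1), Pi.single_eq_of_ne (Ne.symm hl.2)]
      simp)
    have h2 : ({j, j'} : Finset (Fin r)).card ≤ 2 := Finset.card_le_two
    have h3 : (Q.filter (fun y => ψ' (v' y) ≠ 0)).card ≤
        (Q.filter (fun y => (c • f j) y ≠ (c' • f j') y)).card := by
      apply Finset.card_le_card
      intro y hy
      rw [Finset.mem_filter] at hy ⊢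
      refine ⟨hy.1, fun h => hy.2 ?_⟩
      rw [hψ'v, sub_eq_zero]
      simpa [f, hy.1] using h
    omega
  · intro j
    let ψ' : (Fin r → F) →ₗ[F] F := LinearMap.proj j
    have hψ'v : ∀ x, ψ' x = x j := fun x => rfl
    have hψ'0 : ψ' ≠ 0 := by
      intro h
      have h1 := congrArg (fun g : (Fin r → F) →ₗ[F] F => g (Pi.single j 1)) h
      simp only [hψ'v, LinearMap.zero_apply, Pi.single_eq_same] at h1
      exact one_ne_zero h1
    have h1 := hsupp ψ' {j} hψ'0 (by
      intro l hl
      rw [Finset.mem_singleton] at hl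
      rw [hψ'v, Pi.single_eq_of_ne (Ne.symm hl)])
    rw [Finset.card_singleton] at h1
    have h3 : (Q.filter (fun y => ψ' (v' y) ≠ 0)).card ≤ (Q.filter (fun y => f j y ≠ 0)).card := by
      apply Finset.card_le_card
      intro y hy
      rw [Finset.mem_filter] at hy ⊢
      refine ⟨hy.1, ?_⟩
      simpa [f, hy.1, hψ'v] using hy.2
    omega

end Pool.Agent.H15.HX
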