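import Mathlib
import Pool.Agent.H15.HX.Defs
import Pool.Agent.H54.BryDefs
import Pool.Agent.H54.K4
import Pool.Agent.H54.Crit
import Pool.Agent.H56.HX.HMP
import Pool.Agent.H52.HX.HFE

set_option autoImplicit false

namespace Pool.Agent.H15.HX

open Finset Pool.Agent.H9.Bry

open Classical in
theorem hex_density_of_good {F V : Type*} [Field F] [Fintype F] [AddCommGroup V] [Module F V]
    [Fintype V] (C : ℕ) (hC : 1 ≤ C)
    (hgood : ∀ X : Set V, HexFree F X → IsCone F X → (∃ x ∈ X, x ≠ 0) →
      ∃ e ∈ X, e ≠ 0 ∧ ∃ ε : V →ₗ[F] F, ε e = 1 ∧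
        ∑ w ∈ (Finset.univ : Finset V).filter (fun w : V => ε w = 0 ∧ w ≠ 0),
          ((fibT F X e w).card - 1) ≤ (Fintype.card F - 1) * (C - 1))
    (X : Set V) (hK : HexFree F X) (hc : IsCone F X) :
    (X \ {0}).ncard ≤ (Fintype.card F - 1) * C * Module.finrank F (Submodule.span F X) := by
  induction hr : Module.finrank F (Submodule.span F X) using Nat.strong_induction_on
    generalizing X with
  | _ r ih =>
  by_cases hne : ∃ x ∈ X, x ≠ 0
  swap
  · have : X \ {0} = ∅ := by
      ext x
      simp only [Set.mem_sdiff, Set.mem_singleton_iff, Set.mem_empty_iff_false, iff_false, not_and,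
        not_not]
      intro hx
      by_contra h0
      exact hne ⟨x, hx, h0⟩
    rw [this]; simp
  obtain ⟨e, heX, he0, ε, hε, hsum⟩ := hgood X hK hc hne
  set p : V →ₗ[F] V := LinearMap.id - ε.smulRight e with hp
  have hpx : ∀ x, p x = x - ε x • e := fun x => by simp [hp]
  set X' : Set V := p '' X with hX'
  have hK' : HexFree F X' := by
    refine HexFree.map p (Z₁ := {e}) hK (by simpa using heX) ?_ ?_
    · intro z hz
      rw [Set.mem_singleton_iff] at hz
      rw [hpx, hz, hε, one_smul, sub_self]
    · intro u _ hu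
      rw [hpx, sub_eq_zero] at hu
      rw [hu]
      exact Submodule.smul_mem _ _ (Submodule.mem_span_singleton_self e)
  have hc' : IsCone F X' := by
    rintro c _ ⟨x, hx, rfl⟩
    exact ⟨c • x, hc c x hx, by rw [map_smul]⟩
  have hεX' : ∀ w ∈ X', ε w = 0 := by
    rintro _ ⟨x, _, rfl⟩
    rw [hpx, map_sub, map_smul, hε, smul_eq_mul, mul_one, sub_self]
  have hle : Submodule.span F X' ≤ Submodule.span F X := by
    rw [Submodule.span_le]
    rintro _ ⟨x, hx, rfl⟩
    rw [hpx]
    exact Submodule.sub_mem _ (Submodule.subset_span hx)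
      (Submodule.smul_mem _ _ (Submodule.subset_span heX))
  have hlt : Submodule.span F X' < Submodule.span F X := by
    refine lt_of_le_of_ne hle fun heq => ?_
    have h1 : e ∈ Submodule.span F X' := by rw [heq]; exact Submodule.subset_span heX
    have h2 : Submodule.span F X' ≤ LinearMap.ker ε := by
      rw [Submodule.span_le]
      intro w hw
      exact hεX' w hw
    have h3 : ε e = 0 := h2 h1
    rw [hε] at h3
    exact one_ne_zero h3
  have hfr : Module.finrank F (Submodule.span F X') < r := by
    rw [← hr]
    exact Submodule.finrank_lt_finrank_of_lt hlt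
  have hih := ih _ hfr X' hK' hc' rfl
  -- counting
  have h0X : (0 : V) ∈ X := by
    have := hc 0 e heX
    rwa [zero_smul] at this
  set A : Finset V := (Finset.univ : Finset V).filter (fun x => x ∈ X ∧ x ≠ 0) with hA
  have hAcard : (X \ {0}).ncard = A.card := by
    rw [← Set.ncard_coe_finset]
    congr 1
    ext x; simp [hA]
  set A' : Finset V := (Finset.univ : Finset V).filter (fun x => x ∈ X' ∧ x ≠ 0) with hA'
  have hAcard' : (X' \ {0}).ncard = A'.card := by
    rw [← Set.ncard_coe_finset]
    congr 1
    ext x; simp [hA']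
  have hsplit : A.card = (A.filter (fun x => p x = 0)).card +
      (A.filter (fun x => ¬ p x = 0)).card := (Finset.card_filter_add_card_filter_not _).symm
  have hfirst : (A.filter (fun x => p x = 0)).card ≤ Fintype.card F - 1 := by
    have : (A.filter (fun x => p x = 0)).card ≤ ((Finset.univ : Finset F).erase 0).card := by
      refine Finset.card_le_card_of_injOn (fun x => ε x) ?_ ?_
      · intro x hx
        simp only [hA, Finset.coe_filter, Finset.mem_filter, Finset.mem_univ, true_and,
          Set.mem_ofPred_eq] at hx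
        obtain ⟨⟨_, hx0⟩, hpx0⟩ := hx
        simp only [Finset.coe_erase, Finset.coe_univ, Set.mem_sdiff, Set.mem_univ, true_and,
          Set.mem_singleton_iff]
        intro h
        apply hx0
        rw [hpx, h, zero_smul, sub_zero] at hpx0
        exact hpx0
      · intro x hx y hy hxy
        simp only [hA, Finset.coe_filter, Finset.mem_filter, Finset.mem_univ, true_and,
          Set.mem_ofPred_eq] at hx hy
        have h1 := hx.2
        have h2 := hy.2
        rw [hpx, sub_eq_zero] at h1 h2
        rw [h1, h2]
        simp only at hxy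
        rw [hxy]
    rw [Finset.card_erase_of_mem (Finset.mem_univ _), Finset.card_univ] at this
    exact this
  have hmaps : ∀ x ∈ A.filter (fun x => ¬ p x = 0), p x ∈ A' := by
    intro x hx
    simp only [hA, Finset.mem_filter, Finset.mem_univ, true_and] at hx
    simp only [hA', Finset.mem_filter, Finset.mem_univ, true_and]
    exact ⟨⟨x, hx.1.1, rfl⟩, hx.2⟩
  have hsecond : (A.filter (fun x => ¬ p x = 0)).card ≤ ∑ w ∈ A', (fibT F X e w).card := by
    rw [Finset.card_eq_sum_card_fiberwise hmaps]
    refine Finset.sum_le_sum fun w _ => ?_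
    refine Finset.card_le_card_of_injOn (fun x => ε x) ?_ ?_
    · intro x hx
      simp only [hA, Finset.coe_filter, Finset.mem_filter, Finset.mem_univ, true_and,
        Set.mem_ofPred_eq] at hx
      simp only [fibT, Finset.coe_filter, Finset.mem_univ, true_and, Set.mem_ofPred_eq]
      rw [← hx.2, hpx, sub_add_cancel]
      exact hx.1.1.1
    · intro x hx y hy hxy
      simp only [hA, Finset.coe_filter, Finset.mem_filter, Finset.mem_univ, true_and,
        Set.mem_ofPred_eq] at hx hy
      have h1 := hx.2
      have h2 := hy.2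
      rw [hpx] at h1 h2
      simp only at hxy
      rw [← h2, hxy] at h1
      exact sub_left_injective h1
  have hone : ∀ w ∈ A', 1 ≤ (fibT F X e w).card := by
    intro w hw
    simp only [hA', Finset.mem_filter, Finset.mem_univ, true_and] at hw
    obtain ⟨⟨x, hx, hxw⟩, _⟩ := hw
    rw [Nat.one_le_iff_ne_zero, ← Nat.pos_iff_ne_zero, Finset.card_pos]
    refine ⟨ε x, ?_⟩
    simp only [fibT, Finset.mem_filter, Finset.mem_univ, true_and]
    rw [← hxw, hpx, sub_add_cancel]
    exact hx
  have hthird : ∑ w ∈ A', (fibT F X e w).card = A'.card + ∑ w ∈ A', ((fibT F X e w).card - 1) := by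
    rw [Finset.card_eq_sum_ones, ← Finset.sum_add_distrib]
    refine Finset.sum_congr rfl fun w hw => ?_
    have := hone w hw
    omega
  have hfourth : ∑ w ∈ A', ((fibT F X e w).card - 1) ≤ (Fintype.card F - 1) * (C - 1) := by
    refine le_trans (Finset.sum_le_sum_of_subset ?_) hsum
    intro w hw
    simp only [hA', Finset.mem_filter, Finset.mem_univ, true_and] at hw ⊢
    exact ⟨hεX' w hw.1, hw.2⟩
  rw [hAcard'] at hih
  rw [hAcard, hsplit]
  have hr1 : Module.finrank F (Submodule.span F X') + 1 ≤ r := hfr
  have hmul : (Fintype.card F - 1) * C * Module.finrank F (Submodule.span F X') +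
      (Fintype.card F - 1) * C ≤ (Fintype.card F - 1) * C * r := by
    calc _ = (Fintype.card F - 1) * C * (Module.finrank F (Submodule.span F X') + 1) := by ring
      _ ≤ _ := Nat.mul_le_mul_left _ hr1
  have hCe : (Fintype.card F - 1) * C = (Fintype.card F - 1) * (C - 1) + (Fintype.card F - 1) := by
    obtain ⟨C', rfl⟩ : ∃ C', C = C' + 1 := ⟨C - 1, by omega⟩
    simp [Nat.mul_add]
  omega

end Pool.Agent.H15.HX
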