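import Mathlib
import Pool.Agent.H15.HX.HM
import Pool.Agent.H34.HX.SRB
import Pool.Agent.H54.Crit
import Pool.Agent.H54.StdRep

set_option autoImplicit false

namespace Pool.Agent.H15.HX

open Finset Pool.Agent.H9.Bry

open Pool.Agent.H54.Bry in
/-- transfer of a functional between two representations -/
theorem hex_transfer {α F : Type*} [Field F] [Finite α] {M : Matroid α} {n r : ℕ}
    (v : α → (Fin n → F)) (hv : ∀ I : Set α, I ⊆ M.E → (M.Indep I ↔ LinearIndepOn F v I))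
    (v' : α → (Fin r → F)) (hv' : ∀ I : Set α, I ⊆ M.E → (M.Indep I ↔ LinearIndepOn F v' I))
    (hspan : Submodule.span F (v' '' M.E) = ⊤) (ψ' : (Fin r → F) →ₗ[F] F) (hψ' : ψ' ≠ 0) :
    ∃ ψ : (Fin n → F) →ₗ[F] F, (∃ x ∈ M.E, ψ (v x) ≠ 0) ∧
      {x | x ∈ M.E ∧ ψ (v x) ≠ 0} ⊆ {x | x ∈ M.E ∧ ψ' (v' x) ≠ 0} := by
  let H : Set α := {x | x ∈ M.E ∧ ψ' (v' x) = 0}
  have hHE : H ⊆ M.E := fun x hx => hx.1
  have hex : ∃ x ∈ M.E, v x ∉ Submodule.span F (v '' H) := by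
    by_contra hno
    push Not at hno
    have h1 : Submodule.span F (v '' M.E) = Submodule.span F (v '' H) := by
      apply le_antisymm
      · rw [Submodule.span_le]
        rintro _ ⟨x, hx, rfl⟩
        exact hno x hx
      · exact Submodule.span_mono (Set.image_mono hHE)
    have h2 : (M.eRk H).toNat = (M.eRk M.E).toNat := by
      rw [eRk_toNat hv hHE, eRk_toNat hv (subset_refl _), h1]
    rw [eRk_toNat hv' hHE, eRk_toNat hv' (subset_refl _), hspan, finrank_top] at h2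
    have h3 : Submodule.span F (v' '' H) = ⊤ := Submodule.eq_top_of_finrank_eq h2
    apply hψ'
    have h4 : Submodule.span F (v' '' H) ≤ LinearMap.ker ψ' := by
      rw [Submodule.span_le]
      rintro _ ⟨x, hx, rfl⟩
      exact hx.2
    rw [h3, top_le_iff, LinearMap.ker_eq_top] at h4
    exact h4
  obtain ⟨x₀, hx₀, hx₀'⟩ := hex
  obtain ⟨ψ, hψ1, hψ2⟩ := Submodule.exists_le_ker_of_notMem hx₀'
  refine ⟨ψ, ⟨x₀, hx₀, hψ1⟩, ?_⟩
  rintro x ⟨hxE, hx⟩
  refine ⟨hxE, fun hx0 => hx ?_⟩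
  exact hψ2 (Submodule.subset_span ⟨x, ⟨hxE, hx0⟩, rfl⟩)

open Pool.Agent.H54.Bry in
/-- small cocircuits in small rank -/
theorem hcogirth_small {α F : Type*} [Field F] [Fintype F] [Fintype α] {M : Matroid α} {n : ℕ}
    (v : α → (Fin n → F)) (hv : ∀ I : Set α, I ⊆ M.E → (M.Indep I ↔ LinearIndepOn F v I))
    (hK4 : ¬ HasMK4Minor M) (hW3 : ¬ HasW3Minor M) (hne : M.E.Nonempty) (h0 : ∀ x ∈ M.E, v x ≠ 0)
    (hs : ∀ x ∈ M.E, ∀ y ∈ M.E, x ≠ y → ∀ c : F, v x ≠ c • v y)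
    (hrk : (M.eRk M.E).toNat ≤ Fintype.card F + 1) :
    ∃ ψ : (Fin n → F) →ₗ[F] F, (∃ x ∈ M.E, ψ (v x) ≠ 0) ∧
      {x | x ∈ M.E ∧ ψ (v x) ≠ 0}.ncard < Fintype.card F ^ 2 := by
  classical
  obtain ⟨q, hqdef⟩ : ∃ q, q = Fintype.card F := ⟨_, rfl⟩
  have hq : 2 ≤ Fintype.card F := Fintype.one_lt_card
  obtain ⟨r, v', b, hbE, hvb, hv', hspan, hr⟩ := exists_std (F := F) hv (span_basis_eq hv)
  have h0' : ∀ x ∈ M.E, v' x ≠ 0 := by
    intro x hx
    have h1 : LinearIndepOn F v {x} := by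
      rw [linearIndepOn_singleton_iff]
      exact h0 x hx
    have h2 : M.Indep {x} := (hv {x} (by simpa using hx)).2 h1
    have h3 : LinearIndepOn F v' {x} := (hv' {x} (by simpa using hx)).1 h2
    rwa [linearIndepOn_singleton_iff] at h3
  have hs' : ∀ x ∈ M.E, ∀ y ∈ M.E, x ≠ y → ∀ c : F, v' x ≠ c • v' y := by
    intro x hx y hy hxy c
    have hsub : ({y, x} : Set α) ⊆ M.E := by
      rintro z (rfl | rfl)
      · exact hy
      · exact hx
    have h1 : LinearIndepOn F v {y, x} := by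
      rw [LinearIndepOn.pair_iff _ (Ne.symm hxy)]
      intro c d hcd
      have hd : d = 0 := by
        by_contra hd
        apply hs x hx y hy hxy (-(d⁻¹ * c))
        have h2 : d⁻¹ • (c • v y + d • v x) = 0 := by rw [hcd, smul_zero]
        rw [smul_add, smul_smul, smul_smul, inv_mul_cancel₀ hd, one_smul] at h2
        rw [neg_smul]
        exact eq_neg_of_add_eq_zero_right h2
      subst hd
      rw [zero_smul, add_zero, smul_eq_zero] at hcd
      exact ⟨hcd.resolve_right (h0 y hy), rfl⟩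
    have h2 : M.Indep {y, x} := (hv _ hsub).2 h1
    have h3 : LinearIndepOn F v' {y, x} := (hv' _ hsub).1 h2
    rw [LinearIndepOn.pair_iff _ (Ne.symm hxy)] at h3
    intro h4
    have := (h3 c (-1) (by rw [h4, neg_smul, one_smul, add_neg_cancel])).2
    simp at this
  have hr1 : 1 ≤ r := by
    by_contra hr0
    obtain ⟨x, hx⟩ := hne
    have : r = 0 := by omega
    subst this
    exact h0' x hx (Subsingleton.elim _ _)
  let i : Fin r := ⟨0, hr1⟩
  obtain ⟨ψ, hψ1, hψ2⟩ := hex_transfer v hv v' hv' hspan (LinearMap.proj i) (by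
    intro h
    have h1 := congrArg (fun g : (Fin r → F) →ₗ[F] F => g (Pi.single i 1)) h
    simp at h1)
  refine ⟨ψ, hψ1, lt_of_le_of_lt (Set.ncard_le_ncard hψ2 (Set.toFinite _)) ?_⟩
  have hsmall := small_rank (coneOf F v' M.E) (hexfree_of_matroid hv' hK4 hW3) (by
    rintro c x ⟨c', y, hy, rfl⟩
    exact ⟨c * c', y, hy, by rw [smul_smul]⟩) (by
    intro k
    exact ⟨1, b k, hbE k, by rw [hvb, one_smul]⟩) i
  have hle : {x | x ∈ M.E ∧ (LinearMap.proj i : (Fin r → F) →ₗ[F] F) (v' x) ≠ 0}.ncard ≤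
      {x | x ∈ coneOf F v' M.E ∧ x i = 1}.ncard := by
    refine Set.ncard_le_ncard_of_injOn (fun x => (v' x i)⁻¹ • v' x) ?_ ?_ (Set.toFinite _)
    · rintro x ⟨hx, hxi⟩
      exact ⟨⟨_, x, hx, rfl⟩, by simpa using inv_mul_cancel₀ hxi⟩
    · rintro x ⟨hx, hxi⟩ y ⟨hy, hyi⟩ hxy
      by_contra hne'
      apply hs' x hx y hy hne' (v' x i * (v' y i)⁻¹)
      have hxi' : v' x i ≠ 0 := hxi
      have h1 : v' x = v' x i • ((v' x i)⁻¹ • v' x) := by
        rw [smul_smul, mul_inv_cancel₀ hxi', one_smul]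
      have h2 : (v' x i)⁻¹ • v' x = (v' y i)⁻¹ • v' y := hxy
      rw [mul_smul, ← h2]
      exact h1
  refine lt_of_le_of_lt (hle.trans hsmall) ?_
  rw [hr] at hrk
  rw [← hqdef] at *
  obtain ⟨s, rfl⟩ : ∃ s, q = s + 1 := ⟨q - 1, by omega⟩
  have h1 : (r - 1) * (s + 1 - 1) ≤ (s + 1) * s := by
    rw [Nat.add_sub_cancel]
    exact Nat.mul_le_mul_right _ (by omega)
  have h2 : (s + 1) ^ 2 = (s + 1) * s + s + 1 := by ring
  omega

end Pool.Agent.H15.HX
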