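import Mathlib
import Pool.Agent.H15.HX.COG
import Pool.Agent.H15.HX.SMALL
import Pool.Agent.H15.HX.DENS
import Pool.Agent.H56.HX.HMP
import Pool.Agent.H52.HX.HFE
import Pool.Agent.H9.Bry.COL
import Pool.Agent.H9.Bry.MAXF
import Pool.Agent.H54.BryCore

set_option autoImplicit false

namespace Pool.Agent.H15.HX

open Finset Pool.Agent.H9.Bry

open Pool.Agent.H54.Bry Matroid

section

variable {F : Type*} [Field F] [Fintype F]

theorem hex_density {V : Type*} [AddCommGroup V] [Module F V] [Finite V]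
    (X : Set V) (hX : HexFree F X) (hc : IsCone F X) :
    (X \ {0}).ncard ≤
      (Fintype.card F - 1) * Fintype.card F * Module.finrank F (Submodule.span F X) := by
  classical
  letI : Fintype V := Fintype.ofFinite V
  refine hex_density_of_good (Fintype.card F) Fintype.card_pos ?_ X hX hc
  intro X' hX' hc' hne'
  exact exists_good (hX'.k4free hc') hc' hne' _ (fun n f => hfan_end hX' hc' f)

theorem hex_minor {α : Type*} {M : Matroid α} {E' : Set α} (hE' : E' ⊆ M.E) :
    M ↾ E' ≤m M := by
  have h2 := contract_delete_isMinor M ∅ (M.E \ E')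
  rwa [contract_empty, delete_compl hE'] at h2

/-- the critical exponent is at most 3, and at most 2 in rank at most `q + 1` -/
theorem hex_pos {α : Type*} [Fintype α] (M : Matroid α) [M.Loopless]
    (hq5 : 5 ≤ Fintype.card F) (hrep : RepresentableOver F M) (hK4 : ¬ HasMK4Minor M)
    (hW3 : ¬ HasW3Minor M) (K : ℕ)
    (hK : K = 3 ∨ (K = 2 ∧ (M.eRk M.E).toNat ≤ Fintype.card F + 1)) :
    0 < charPoly M ((Fintype.card F : ℤ) ^ K) := by
  classical
  obtain ⟨n, v0, hv0⟩ := hrep
  obtain ⟨r, v, b, hbE, hvb, hv, hspan, hr⟩ := exists_std (F := F) hv0 (span_basis_eq hv0)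
  have h0 : ∀ x ∈ M.E, v x ≠ 0 := by
    intro x hx h
    have h1 : M.Indep {x} := (M.isNonloop_of_loopless hx).indep
    have h2 : LinearIndepOn F v {x} := (hv {x} (by simpa using hx)).1 h1
    exact h2.ne_zero (Set.mem_singleton x) h
  obtain ⟨φ, hφ⟩ := exists_colouring v M.E K h0 (by
    intro E' hE' hne' hs'
    have hKr : ¬ HasMK4Minor (M ↾ E') := by
      rintro ⟨N, hN, hN4⟩
      exact hK4 ⟨N, hN.trans (hex_minor hE'), hN4⟩
    have hWr : ¬ HasW3Minor (M ↾ E') := by
      rintro ⟨N, hN, hN4⟩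
      exact hW3 ⟨N, hN.trans (hex_minor hE'), hN4⟩
    have hvr : ∀ I : Set α, I ⊆ (M ↾ E').E → ((M ↾ E').Indep I ↔ LinearIndepOn F v I) := by
      intro I hI
      rw [Matroid.restrict_ground_eq] at hI
      rw [Matroid.restrict_indep_iff, ← hv I (hI.trans hE')]
      exact ⟨fun h => h.1, fun h => ⟨h, hI⟩⟩
    rcases hK with rfl | ⟨rfl, hrk⟩
    · obtain ⟨ψ, h1, h2⟩ := hcogirth_bound (M := M ↾ E') v hvr hq5 hKr hWr (by simpa using hne')
        (fun x hx => h0 x (hE' hx)) (by simpa using hs') (fun r X => hex_density X)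
        (fun X => hex_density X)
      refine ⟨ψ, h1, lt_of_le_of_lt h2 ?_⟩
      have h3 : 0 < Fintype.card F ^ 3 := pow_pos Fintype.card_pos 3
      omega
    · refine hcogirth_small (M := M ↾ E') v hvr hKr hWr (by simpa using hne')
        (fun x hx => h0 x (hE' hx)) (by simpa using hs') ?_
      refine le_trans ?_ hrk
      rw [Matroid.restrict_ground_eq]
      have h4 : (M ↾ E').eRk E' = M.eRk E' := by simp
      rw [h4]
      exact ENat.toNat_le_toNat (M.eRk_mono hE') (by
        have := M.eRk_le_encard M.E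
        exact ne_top_of_le_ne_top (Set.encard_ne_top_iff.2 (Set.toFinite _)) this))
  exact charPoly_pos M v hv hspan K φ hφ

end

end Pool.Agent.H15.HX
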